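import Mathlib

/-!
# Acyclicity over `ZMod 2` of families of finite sets, elementary expansions
-/

set_option autoImplicit false
set_option linter.unusedSectionVars false

namespace Pool.Agent.FourInt

variable {V : Type} [Fintype V] [DecidableEq V]

/-- the simplicial boundary of a chain with coefficients in `ZMod 2` -/
def bd (c : Finset V → ZMod 2) (G : Finset V) : ZMod 2 := ∑ v ∈ Gᶜ, c (insert v G)

/-- every cycle supported on `S` is the boundary of a chain supported on `S` -/
def Acyc (S : Finset V → Prop) : Prop :=
  ∀ c : Finset V → ZMod 2, (∀ F, ¬ S F → c F = 0) → (∀ G, bd c G = 0) →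
    ∃ d : Finset V → ZMod 2, (∀ F, ¬ S F → d F = 0) ∧ ∀ G, c G = bd d G

/-- closed under subsets -/
def Closed (S : Finset V → Prop) : Prop := ∀ F, S F → ∀ G, G ⊆ F → S G

theorem Acyc.congr {S T : Finset V → Prop} (h : ∀ F, S F ↔ T F) (hS : Acyc S) : Acyc T := by
  have : S = T := funext fun F => propext (h F)
  rwa [← this]

theorem Closed.congr {S T : Finset V → Prop} (h : ∀ F, S F ↔ T F) (hS : Closed S) :
    Closed T := by
  have : S = T := funext fun F => propext (h F)
  rwa [← this]

theorem add_self' (a : ZMod 2) : a + a = 0 := CharTwo.add_self_eq_zero a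

theorem bd_bd (c : Finset V → ZMod 2) (G : Finset V) : bd (bd c) G = 0 := by
  unfold bd
  rw [Finset.sum_sigma']
  refine Finset.sum_involution (fun p _ => ⟨p.2, p.1⟩) ?_ ?_ ?_ ?_
  · rintro ⟨v, w⟩ h
    simp only [Finset.mem_sigma, Finset.mem_compl, Finset.mem_insert, not_or] at h
    rw [Finset.insert_comm w v G]
    exact add_self' _
  · rintro ⟨v, w⟩ h _ h2
    simp only [Finset.mem_sigma, Finset.mem_compl, Finset.mem_insert, not_or] at h
    simp only [Sigma.mk.injEq] at h2
    exact h.2.1 h2.1
  · rintro ⟨v, w⟩ h
    simp only [Finset.mem_sigma, Finset.mem_compl, Finset.mem_insert, not_or] at h ⊢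
    exact ⟨h.2.2, fun h3 => h.2.1 h3.symm, h.1⟩
  · rintro ⟨v, w⟩ h
    rfl

theorem bd_add (c d : Finset V → ZMod 2) (G : Finset V) :
    bd (fun F => c F + d F) G = bd c G + bd d G := by
  unfold bd
  rw [Finset.sum_add_distrib]

theorem bd_mul (a : ZMod 2) (c : Finset V → ZMod 2) (G : Finset V) :
    bd (fun F => a * c F) G = a * bd c G := by
  unfold bd
  rw [Finset.mul_sum]

/-- elementary expansion -/
theorem closed_step {S : Finset V → Prop} (hS : Closed S) {f : Finset V} {x : V}
    (hy : ∀ y ∈ f, S (insert x (f.erase y))) :
    Closed (fun F => S F ∨ F = f ∨ F = insert x f) := by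
  have key : ∀ G, G ⊆ insert x f → S G ∨ G = f ∨ G = insert x f := by
    intro G hG
    by_cases h1 : G = insert x f
    · exact Or.inr (Or.inr h1)
    by_cases h2 : G = f
    · exact Or.inr (Or.inl h2)
    left
    by_cases h3 : f ⊆ G
    · exfalso
      by_cases h4 : x ∈ G
      · exact h1 (Finset.Subset.antisymm hG (Finset.insert_subset h4 h3))
      · refine h2 (Finset.Subset.antisymm ?_ h3)
        intro z hz
        rcases Finset.mem_insert.1 (hG hz) with rfl | h
        · exact absurd hz h4
        · exact h
    · obtain ⟨y, hy1, hy2⟩ := Finset.not_subset.1 h3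
      refine hS _ (hy y hy1) G ?_
      intro z hz
      rcases Finset.mem_insert.1 (hG hz) with rfl | h
      · exact Finset.mem_insert_self _ _
      · refine Finset.mem_insert_of_mem (Finset.mem_erase.2 ⟨?_, h⟩)
        rintro rfl
        exact hy2 hz
  rintro F (h | rfl | rfl) G hG
  · exact Or.inl (hS F h G hG)
  · exact key G (hG.trans (Finset.subset_insert _ _))
  · exact key G hG

theorem acyc_step {S : Finset V → Prop} (hS : Closed S) (hA : Acyc S) {f : Finset V} {x : V}
    (hx : x ∉ f) (hf : ¬ S f) (hy : ∀ y ∈ f, S (insert x (f.erase y))) :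
    Acyc (fun F => S F ∨ F = f ∨ F = insert x f) := by
  intro c hc hb
  have hF : ¬ S (insert x f) := fun h => hf (hS _ h _ (Finset.subset_insert _ _))
  -- the coefficient of the big face is zero
  have h1 : c (insert x f) = 0 := by
    have h2 := hb f
    unfold bd at h2
    rw [Finset.sum_eq_single x] at h2
    · exact h2
    · intro v hv hvx
      refine hc _ ?_
      rintro (h | h | h)
      · exact hf (hS _ h _ (Finset.subset_insert _ _))
      · have : v ∈ insert v f := Finset.mem_insert_self _ _
        rw [h] at this
        exact (Finset.mem_compl.1 hv) this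
      · have : v ∈ insert x f := by rw [← h]; exact Finset.mem_insert_self _ _
        rcases Finset.mem_insert.1 this with h3 | h3
        · exact hvx h3
        · exact (Finset.mem_compl.1 hv) h3
    · intro h
      exact absurd (Finset.mem_compl.2 hx) h
  set δ : Finset V → ZMod 2 := fun G => if G = insert x f then 1 else 0 with hδ
  set a := c f with ha
  have hδf : bd δ f = 1 := by
    unfold bd
    rw [Finset.sum_eq_single x]
    · simp [hδ]
    · intro v hv hvx
      simp only [hδ]
      rw [if_neg]
      intro h
      have : v ∈ insert x f := by rw [← h]; exact Finset.mem_insert_self _ _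
      rcases Finset.mem_insert.1 this with h3 | h3
      · exact hvx h3
      · exact (Finset.mem_compl.1 hv) h3
    · intro h
      exact absurd (Finset.mem_compl.2 hx) h
  have hδ0 : ∀ G, ¬ S G → G ≠ f → bd δ G = 0 := by
    intro G hG hGf
    unfold bd
    refine Finset.sum_eq_zero fun v hv => ?_
    simp only [hδ]
    rw [if_neg]
    intro h
    have hvG : v ∉ G := Finset.mem_compl.1 hv
    have hv2 : v ∈ insert x f := by rw [← h]; exact Finset.mem_insert_self _ _
    have hG2 : G = (insert x f).erase v := by
      rw [← h, Finset.erase_insert hvG]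
    rcases Finset.mem_insert.1 hv2 with rfl | h3
    · rw [Finset.erase_insert hx] at hG2
      exact hGf hG2
    · have hvx : v ≠ x := by rintro rfl; exact hx h3
      rw [Finset.erase_insert_of_ne hvx.symm] at hG2
      exact hG (hG2 ▸ hy v h3)
  obtain ⟨d', hd1, hd2⟩ := hA (fun G => c G + a * bd δ G) (by
      intro G hG
      by_cases h2 : G = f
      · subst h2
        simp only [hδf, mul_one, ← ha]
        exact add_self' _
      · simp only [hδ0 G hG h2, mul_zero, add_zero]
        by_cases h3 : G = insert x f
        · rw [h3]; exact h1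
        · exact hc G (by rintro (h | h | h); exacts [hG h, h2 h, h3 h])) (by
      intro G
      rw [bd_add, bd_mul, bd_bd, hb]
      simp)
  refine ⟨fun G => d' G + a * δ G, ?_, ?_⟩
  · intro G hG
    have h4 : ¬ S G := fun h => hG (Or.inl h)
    have h5 : G ≠ insert x f := fun h => hG (Or.inr (Or.inr h))
    simp only [hd1 G h4, hδ, if_neg h5, mul_zero, add_zero]
  · intro G
    rw [bd_add, bd_mul, ← hd2]
    have := add_self' (a * bd δ G)
    calc c G = c G + (a * bd δ G + a * bd δ G) := by rw [this, add_zero]
      _ = _ := by ring

theorem acyc_false : Acyc (fun _ : Finset V => False) := by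
  intro c hc _
  refine ⟨fun _ => 0, fun _ _ => rfl, fun G => ?_⟩
  rw [hc G not_false]
  simp [bd]

theorem closed_false : Closed (fun _ : Finset V => False) := fun _ h => h.elim

theorem closed_simplex (C : Finset V) : Closed (fun F => F ⊆ C) :=
  fun _ h _ h2 => h2.trans h

/-- a simplex with at least one vertex is acyclic -/
theorem acyc_simplex (C : Finset V) {a : V} (ha : a ∈ C) : Acyc (fun F => F ⊆ C) := by
  intro c hc hb
  refine ⟨fun F => if a ∈ F ∧ F ⊆ C then c (F.erase a) else 0, ?_, ?_⟩
  · intro F hF
    simp only
    rw [if_neg]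
    exact fun h => hF h.2
  · intro G
    unfold bd
    beta_reduce
    by_cases haG : a ∈ G
    · by_cases hGC : G ⊆ C
      · have h1 := hb (G.erase a)
        unfold bd at h1
        have h2 : (G.erase a)ᶜ = insert a Gᶜ := by
          ext z
          simp only [Finset.mem_compl, Finset.mem_erase, Finset.mem_insert, not_and, ne_eq]
          by_cases hz : z = a
          · simp [hz]
          · simp [hz]
        rw [h2, Finset.sum_insert (by simpa using haG), Finset.insert_erase haG] at h1
        have h3 : ∑ v ∈ Gᶜ, (if a ∈ insert v G ∧ insert v G ⊆ C then c ((insert v G).erase a)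
            else 0) = ∑ v ∈ Gᶜ, c (insert v (G.erase a)) := by
          refine Finset.sum_congr rfl fun v hv => ?_
          have hv' : v ∉ G := Finset.mem_compl.1 hv
          have hva : v ≠ a := by rintro rfl; exact hv' haG
          have e1 : (insert v G).erase a = insert v (G.erase a) := by
            rw [Finset.erase_insert_of_ne hva]
          by_cases hvC : v ∈ C
          · rw [if_pos ⟨Finset.mem_insert_of_mem haG, Finset.insert_subset hvC hGC⟩, e1]
          · rw [if_neg, hc]
            · intro h
              exact hvC (h (Finset.mem_insert_self _ _))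
            · rintro ⟨-, h⟩
              exact hvC (h (Finset.mem_insert_self _ _))
        rw [h3]
        have h4 := add_self' (c G)
        calc c G = c G + (c G + ∑ v ∈ Gᶜ, c (insert v (G.erase a))) := by rw [h1, add_zero]
          _ = _ := by rw [← add_assoc, h4, zero_add]
      · rw [hc G hGC]
        symm
        refine Finset.sum_eq_zero fun v _ => ?_
        rw [if_neg]
        rintro ⟨-, h⟩
        exact hGC ((Finset.subset_insert _ _).trans h)
    · rw [Finset.sum_eq_single a]
      · rw [Finset.erase_insert haG]
        by_cases hGC : G ⊆ C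
        · rw [if_pos ⟨Finset.mem_insert_self _ _, Finset.insert_subset ha hGC⟩]
        · rw [hc G hGC, if_neg]
          rintro ⟨-, h⟩
          exact hGC ((Finset.subset_insert _ _).trans h)
      · intro v _ hva
        rw [if_neg]
        rintro ⟨h, -⟩
        rcases Finset.mem_insert.1 h with h | h
        · exact hva h.symm
        · exact haG h
      · intro h
        exact absurd (Finset.mem_compl.2 haG) h

/-! ### lists of expansions in a small model -/

variable {m : ℕ}

/-- all the expansions of the list are legal, starting from `A` -/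
def okSteps (A : Finset (Finset (Fin m))) : List (Finset (Fin m) × Fin m) → Bool
  | [] => true
  | (f, x) :: L => decide (x ∉ f) && decide (f ∉ A) &&
      decide (∀ y ∈ f, insert x (f.erase y) ∈ A) &&
      okSteps (insert (insert x f) (insert f A)) L

/-- result of the expansions -/
def finSteps (A : Finset (Finset (Fin m))) :
    List (Finset (Fin m) × Fin m) → Finset (Finset (Fin m))
  | [] => A
  | (f, x) :: L => finSteps (insert (insert x f) (insert f A)) L

theorem subset_finSteps (L : List (Finset (Fin m) × Fin m)) :
    ∀ A : Finset (Finset (Fin m)), A ⊆ finSteps A L := by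
  induction L with
  | nil => intro A; exact Finset.Subset.refl _
  | cons p L ih =>
    intro A
    obtain ⟨f, x⟩ := p
    rw [finSteps]
    exact ((Finset.subset_insert _ _).trans (Finset.subset_insert _ _)).trans (ih _)

theorem steps_acyc (φ : Fin m ↪ V) (L : List (Finset (Fin m) × Fin m)) :
    ∀ (S : Finset V → Prop) (A : Finset (Finset (Fin m))), Closed S → Acyc S →
      (∀ g : Finset (Fin m), S (g.map φ) ↔ g ∈ A) → okSteps A L = true →
      Closed (fun F => S F ∨ ∃ g ∈ finSteps A L, F = g.map φ) ∧
      Acyc (fun F => S F ∨ ∃ g ∈ finSteps A L, F = g.map φ) := by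
  induction L with
  | nil =>
    intro S A hS hA hSA _
    have h : ∀ F, S F ↔ (S F ∨ ∃ g ∈ finSteps A [], F = g.map φ) := by
      intro F
      constructor
      · exact Or.inl
      · rintro (h | ⟨g, hg, rfl⟩)
        · exact h
        · exact (hSA g).2 hg
    exact ⟨hS.congr h, hA.congr h⟩
  | cons p L ih =>
    obtain ⟨f, x⟩ := p
    intro S A hS hA hSA hok
    simp only [okSteps, Bool.and_eq_true, decide_eq_true_eq] at hok
    obtain ⟨⟨⟨h1, h2⟩, h3⟩, h4⟩ := hok
    have hx : φ x ∉ f.map φ := by simpa using h1
    have hf : ¬ S (f.map φ) := fun h => h2 ((hSA f).1 h)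
    have hy : ∀ y ∈ f.map φ, S (insert (φ x) ((f.map φ).erase y)) := by
      intro y hy
      obtain ⟨z, hz, rfl⟩ := Finset.mem_map.1 hy
      have e : insert (φ x) ((f.map φ).erase (φ z)) = (insert x (f.erase z)).map φ := by
        rw [Finset.map_insert, Finset.map_erase]
      rw [e]
      exact (hSA _).2 (h3 z hz)
    have hins : insert (φ x) (f.map φ) = (insert x f).map φ := by rw [Finset.map_insert]
    have c1 := closed_step hS hy
    have a1 := acyc_step hS hA hx hf hy
    rw [hins] at c1 a1
    obtain ⟨c2, a2⟩ := ih _ (insert (insert x f) (insert f A)) c1 a1 (by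
      intro g
      simp only [Finset.map_inj, Finset.mem_insert, hSA g]
      tauto) h4
    have h : ∀ F, ((S F ∨ F = f.map φ ∨ F = (insert x f).map φ) ∨
        ∃ g ∈ finSteps (insert (insert x f) (insert f A)) L, F = g.map φ) ↔
        (S F ∨ ∃ g ∈ finSteps A ((f, x) :: L), F = g.map φ) := by
      intro F
      rw [finSteps]
      constructor
      · rintro ((h | rfl | rfl) | h)
        · exact Or.inl h
        · exact Or.inr ⟨f, subset_finSteps L _ (by simp), rfl⟩
        · exact Or.inr ⟨insert x f, subset_finSteps L _ (by simp), rfl⟩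
        · exact Or.inr h
      · rintro (h | h)
        · exact Or.inl (Or.inl h)
        · exact Or.inr h
    exact ⟨c2.congr h, a2.congr h⟩

end Pool.Agent.FourInt
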