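import Pool.Agent.Lib.MP_1ce213_co.Model

/-!
# The complex on 24 vertices
-/

set_option autoImplicit false
set_option linter.unusedSectionVars false

namespace Pool.Agent.FourInt

/-- the vertex of type `t` in block `i` -/
def vx (i : Fin 8) (t : Fin 3) : Fin 24 := ⟨3 * i + t, by omega⟩

/-- the block of a vertex -/
def blk (v : Fin 24) : Fin 8 := ⟨v / 3, by omega⟩

/-- the type of a vertex (`2`: leaf) -/
def typ (v : Fin 24) : Fin 3 := ⟨v % 3, by omega⟩

theorem blk_vx (i : Fin 8) (t : Fin 3) : blk (vx i t) = i := by
  apply Fin.ext; simp only [blk, vx]; omega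

theorem typ_vx (i : Fin 8) (t : Fin 3) : typ (vx i t) = t := by
  apply Fin.ext; simp only [typ, vx]; omega

theorem vx_eta (v : Fin 24) : vx (blk v) (typ v) = v := by
  apply Fin.ext; simp only [blk, typ, vx]; omega

/-- a block -/
def psi (i : Fin 8) : Fin 3 ↪ Fin 24 :=
  ⟨vx i, fun s t h => by have := congrArg typ h; rwa [typ_vx, typ_vx] at this⟩

theorem psi_apply (i : Fin 8) (t : Fin 3) : psi i t = vx i t := rfl

/-- pairs of blocks -/
abbrev Pairs : Type := {p : Fin 8 × Fin 8 // p.1 < p.2}

theorem model_inj : ∀ a b : Fin 6, bl a = bl b → ty a = ty b → a = b := by decide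

/-- the block of the image of a model vertex -/
def side (p : Pairs) (b : Bool) : Fin 8 := if b then p.1.2 else p.1.1

theorem side_inj (p : Pairs) {b c : Bool} (h : side p b = side p c) : b = c := by
  have hp := p.2
  cases b <;> cases c <;> simp [side] at h ⊢
  · rw [h] at hp; exact absurd hp (lt_irrefl _)
  · rw [h] at hp; exact absurd hp (lt_irrefl _)

/-- the embedding of the model with six vertices -/
def phi (p : Pairs) : Fin 6 ↪ Fin 24 :=
  ⟨fun a => vx (side p (bl a)) (ty a), fun a b h => by
    have h1 := congrArg typ h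
    have h2 := congrArg blk h
    rw [typ_vx, typ_vx] at h1
    rw [blk_vx, blk_vx] at h2
    exact model_inj a b (side_inj p h2) h1⟩

theorem blk_phi (p : Pairs) (a : Fin 6) : blk (phi p a) = side p (bl a) := blk_vx _ _

theorem typ_phi (p : Pairs) (a : Fin 6) : typ (phi p a) = ty a := typ_vx _ _

/-- the core vertices -/
def core : Finset (Fin 24) := Finset.univ.filter fun v => typ v ≠ 2

/-- the core with some leaf triangles -/
def SI (I : Finset (Fin 8)) (F : Finset (Fin 24)) : Prop :=
  F ⊆ core ∨ ∃ i ∈ I, ∃ g ∈ finSteps A3 L3, F = g.map (psi i)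

theorem two_SI (I : Finset (Fin 8)) : Two (SI I) := by
  induction I using Finset.induction_on with
  | empty =>
    have h := two_simplex core (by decide +kernel)
    have e : (fun F => F ⊆ core) = SI ∅ := by
      funext F
      simp [SI]
    rwa [← e]
  | insert i I hi ih =>
    have h := ih.glue (psi i) (A := A3) (L := L3) (Lk := Lk3) (by
      intro g
      have hA : g ∈ A3 ↔ (2 : Fin 3) ∉ g := by simp [A3]
      rw [hA]
      constructor
      · rintro (h | ⟨j, hj, g', _, h⟩) h2
        · have h3 : psi i 2 ∈ core := h (Finset.mem_map_of_mem _ h2)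
          simp only [core, Finset.mem_filter, psi_apply, typ_vx] at h3
          exact h3.2 rfl
        · have h3 : psi i 2 ∈ g'.map (psi j) := h ▸ Finset.mem_map_of_mem _ h2
          obtain ⟨t, _, ht⟩ := Finset.mem_map.1 h3
          have h4 := congrArg blk ht
          rw [psi_apply, psi_apply, blk_vx, blk_vx] at h4
          exact hi (h4 ▸ hj)
      · intro h2
        left
        intro v hv
        obtain ⟨t, ht, rfl⟩ := Finset.mem_map.1 hv
        simp only [core, Finset.mem_filter, Finset.mem_univ, true_and, psi_apply, typ_vx]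
        rintro rfl
        exact h2 ht) ok3 okk3 fin3
    have e : (fun F => SI I F ∨ ∃ g ∈ finSteps A3 L3, F = g.map (psi i)) = SI (insert i I) := by
      funext F
      apply propext
      simp only [SI, Finset.mem_insert]
      constructor
      · rintro ((k | ⟨j, hj, k⟩) | k)
        · exact Or.inl k
        · exact Or.inr ⟨j, Or.inr hj, k⟩
        · exact Or.inr ⟨i, Or.inl rfl, k⟩
      · rintro (k | ⟨j, hj | hj, k⟩)
        · exact Or.inl (Or.inl k)
        · subst hj; exact Or.inr k
        · exact Or.inl (Or.inr ⟨j, hj, k⟩)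
    rwa [← e]

/-- the base: faces with all vertices in the core or all vertices in one block -/
def Bs (F : Finset (Fin 24)) : Prop :=
  ∀ u ∈ F, ∀ v ∈ F, blk u ≠ blk v → typ u ≠ 2 ∧ typ v ≠ 2

theorem two_Bs : Two Bs := by
  have e : SI Finset.univ = Bs := by
    funext F
    apply propext
    constructor
    · rintro (h | ⟨i, _, g, _, rfl⟩) u hu v hv huv
      · have h1 := h hu
        have h2 := h hv
        simp only [core, Finset.mem_filter] at h1 h2
        exact ⟨h1.2, h2.2⟩
      · exfalso
        obtain ⟨s, _, rfl⟩ := Finset.mem_map.1 hu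
        obtain ⟨t, _, rfl⟩ := Finset.mem_map.1 hv
        rw [psi_apply, psi_apply, blk_vx, blk_vx] at huv
        exact huv rfl
    · intro h
      by_cases hc : F ⊆ core
      · exact Or.inl hc
      · right
        obtain ⟨v, hv, hvc⟩ := Finset.not_subset.1 hc
        have hv2 : typ v = 2 := by
          by_contra h2
          exact hvc (by simp [core, h2])
        refine ⟨blk v, Finset.mem_univ _, Finset.univ.filter fun t => vx (blk v) t ∈ F,
          mem_fin3 _, ?_⟩
        ext u
        simp only [Finset.mem_map, Finset.mem_filter, Finset.mem_univ, true_and, psi_apply]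
        constructor
        · intro hu
          have hb : blk u = blk v := by
            by_contra hb
            exact (h u hu v hv hb).2 hv2
          refine ⟨typ u, ?_, ?_⟩
          · rw [← hb, vx_eta]; exact hu
          · rw [← hb, vx_eta]
        · rintro ⟨t, ht, rfl⟩
          exact ht
  rw [← e]
  exact two_SI _

/-- the model with all its faces -/
def X6 : Finset (Finset (Fin 6)) := finSteps A6 L6

/-- the base with some copies of the model -/
def ST (T : Finset Pairs) (F : Finset (Fin 24)) : Prop :=
  Bs F ∨ ∃ p ∈ T, ∃ g ∈ X6, F = g.map (phi p)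

theorem mem_A6 (g : Finset (Fin 6)) :
    g ∈ A6 ↔ ∀ a ∈ g, ∀ b ∈ g, bl a ≠ bl b → ty a ≠ 2 ∧ ty b ≠ 2 := by
  simp [A6]

theorem side_ne (p : Pairs) {b c : Bool} (h : b ≠ c) : side p b ≠ side p c :=
  fun h2 => h (side_inj p h2)

theorem Bs_map (p : Pairs) (g : Finset (Fin 6)) : Bs (g.map (phi p)) ↔ g ∈ A6 := by
  rw [mem_A6]
  constructor
  · intro h a ha b hb hab
    have := h (phi p a) (Finset.mem_map_of_mem _ ha) (phi p b) (Finset.mem_map_of_mem _ hb)
      (by rw [blk_phi, blk_phi]; exact side_ne p hab)
    rwa [typ_phi, typ_phi] at this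
  · intro h u hu v hv huv
    obtain ⟨a, ha, rfl⟩ := Finset.mem_map.1 hu
    obtain ⟨b, hb, rfl⟩ := Finset.mem_map.1 hv
    rw [typ_phi, typ_phi]
    refine h a ha b hb fun hab => huv ?_
    rw [blk_phi, blk_phi, hab]

/-- two copies share no face outside the base -/
theorem pair_eq {p q : Pairs} {g g' : Finset (Fin 6)} (hg : g ∉ A6)
    (h : g.map (phi p) ⊆ g'.map (phi q)) : p = q := by
  rw [mem_A6] at hg
  push Not at hg
  obtain ⟨a, ha, b, hb, hab, -⟩ := hg
  obtain ⟨c, -, hc⟩ := Finset.mem_map.1 (h (Finset.mem_map_of_mem _ ha))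
  obtain ⟨d, -, hd⟩ := Finset.mem_map.1 (h (Finset.mem_map_of_mem _ hb))
  have h1 := congrArg blk hc
  have h2 := congrArg blk hd
  rw [blk_phi, blk_phi] at h1 h2
  have hp := p.2
  have hq := q.2
  apply Subtype.ext
  apply Prod.ext
  · cases ha' : bl a <;> cases hb' : bl b <;> cases hc' : bl c <;> cases hd' : bl d <;>
      simp [ha', hb', hc', hd', side] at hab h1 h2 <;>
      first
        | exact h1.symm
        | exact h2.symm
        | (exfalso; rw [← h1, ← h2] at hp; exact absurd hp (lt_irrefl _))
        | (exfalso; rw [← h1, ← h2] at hp; exact absurd (hp.trans hq) (lt_irrefl _))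
  · cases ha' : bl a <;> cases hb' : bl b <;> cases hc' : bl c <;> cases hd' : bl d <;>
      simp [ha', hb', hc', hd', side] at hab h1 h2 <;>
      first
        | exact h1.symm
        | exact h2.symm
        | (exfalso; rw [← h1, ← h2] at hp; exact absurd hp (lt_irrefl _))
        | (exfalso; rw [← h1, ← h2] at hp; exact absurd (hp.trans hq) (lt_irrefl _))

theorem two_ST (T : Finset Pairs) : Two (ST T) := by
  induction T using Finset.induction_on with
  | empty =>
    have e : Bs = ST ∅ := by
      funext F
      simp [ST]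
    rw [← e]
    exact two_Bs
  | insert p T hp ih =>
    have h := ih.glue (phi p) (A := A6) (L := L6) (Lk := Lk6) (by
      intro g
      constructor
      · rintro (h | ⟨q, hq, g', _, h⟩)
        · exact (Bs_map p g).1 h
        · by_contra hg
          have := pair_eq hg (Finset.Subset.antisymm_iff.1 h).1
          exact hp (this ▸ hq)
      · intro h
        exact Or.inl ((Bs_map p g).2 h)) ok6 okk6 fin6
    have e : (fun F => ST T F ∨ ∃ g ∈ finSteps A6 L6, F = g.map (phi p)) =
        ST (insert p T) := by
      funext F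
      apply propext
      simp only [ST, Finset.mem_insert, X6]
      constructor
      · rintro ((k | ⟨j, hj, k⟩) | k)
        · exact Or.inl k
        · exact Or.inr ⟨j, Or.inr hj, k⟩
        · exact Or.inr ⟨p, Or.inl rfl, k⟩
      · rintro (k | ⟨j, hj | hj, k⟩)
        · exact Or.inl (Or.inl k)
        · subst hj; exact Or.inr k
        · exact Or.inl (Or.inr ⟨j, hj, k⟩)
    rwa [← e]

end Pool.Agent.FourInt
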