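import Pool.Agent.Lib.MP_1ce213_co.Acyc

/-!
# Gluing small relative complexes; the relative complex with 5 edges, 10 triangles, 5 tetrahedra
-/

set_option autoImplicit false
set_option linter.unusedSectionVars false

namespace Pool.Agent.FourInt

variable {V : Type} [Fintype V] [DecidableEq V]

/-- the link of a vertex -/
def lk (S : Finset V → Prop) (u : V) (F : Finset V) : Prop := u ∉ F ∧ S (insert u F)

/-- closed, acyclic, with acyclic vertex links -/
structure Two (S : Finset V → Prop) : Prop where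
  closed : Closed S
  acyc : Acyc S
  link : ∀ u, Acyc (lk S u)

theorem Closed.lk {S : Finset V → Prop} (hS : Closed S) (u : V) : Closed (lk S u) := by
  rintro F ⟨h1, h2⟩ G hG
  exact ⟨fun h => h1 (hG h), hS _ h2 _ (Finset.insert_subset_insert _ hG)⟩

variable {m : ℕ}

/-- the link in a model -/
def lkM (A : Finset (Finset (Fin m))) (a : Fin m) : Finset (Finset (Fin m)) :=
  Finset.univ.filter fun g => a ∉ g ∧ insert a g ∈ A

theorem Two.glue (φ : Fin m ↪ V) {S : Finset V → Prop} (hS : Two S)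
    {A : Finset (Finset (Fin m))} {L : List (Finset (Fin m) × Fin m)}
    {Lk : Fin m → List (Finset (Fin m) × Fin m)}
    (hSA : ∀ g : Finset (Fin m), S (g.map φ) ↔ g ∈ A)
    (h1 : okSteps A L = true) (h2 : ∀ a, okSteps (lkM A a) (Lk a) = true)
    (h3 : ∀ a, finSteps (lkM A a) (Lk a) = lkM (finSteps A L) a) :
    Two (fun F => S F ∨ ∃ g ∈ finSteps A L, F = g.map φ) := by
  obtain ⟨c1, a1⟩ := steps_acyc φ L S A hS.closed hS.acyc hSA h1
  refine ⟨c1, a1, fun u => ?_⟩
  by_cases hu : ∃ a, φ a = u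
  · obtain ⟨a, rfl⟩ := hu
    obtain ⟨-, a2⟩ := steps_acyc φ (Lk a) (FourInt.lk S (φ a)) (lkM A a) (hS.closed.lk _)
      (hS.link _) (by
        intro g
        simp only [FourInt.lk, lkM, Finset.mem_filter, Finset.mem_univ, true_and,
          Finset.mem_map', ← Finset.map_insert, hSA]) (h2 a)
    rw [h3 a] at a2
    refine a2.congr fun F => ?_
    simp only [FourInt.lk, lkM, Finset.mem_filter, Finset.mem_univ, true_and]
    constructor
    · rintro (⟨h4, h5⟩ | ⟨g, ⟨h4, h5⟩, rfl⟩)
      · exact ⟨h4, Or.inl h5⟩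
      · refine ⟨by simpa using h4, Or.inr ⟨_, h5, ?_⟩⟩
        rw [Finset.map_insert]
    · rintro ⟨h4, h5 | ⟨g, h5, h6⟩⟩
      · exact Or.inl ⟨h4, h5⟩
      · right
        have h7 : a ∈ g := by
          have : φ a ∈ g.map φ := by rw [← h6]; exact Finset.mem_insert_self _ _
          simpa using this
        refine ⟨g.erase a, ⟨by simp, by rwa [Finset.insert_erase h7]⟩, ?_⟩
        rw [Finset.map_erase, ← h6, Finset.erase_insert h4]
  · refine (hS.link u).congr fun F => ?_
    simp only [FourInt.lk]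
    constructor
    · rintro ⟨h4, h5⟩
      exact ⟨h4, Or.inl h5⟩
    · rintro ⟨h4, h5 | ⟨g, h5, h6⟩⟩
      · exact ⟨h4, h5⟩
      · exfalso
        have : u ∈ g.map φ := by rw [← h6]; exact Finset.mem_insert_self _ _
        obtain ⟨a, _, ha⟩ := Finset.mem_map.1 this
        exact hu ⟨a, ha⟩

/-- a simplex with at least two vertices -/
theorem two_simplex (C : Finset V) (hC : 1 < C.card) : Two (fun F => F ⊆ C) where
  closed := closed_simplex C
  acyc := by
    obtain ⟨a, ha⟩ := Finset.card_pos.1 (lt_trans zero_lt_one hC)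
    exact acyc_simplex C ha
  link u := by
    by_cases hu : u ∈ C
    · obtain ⟨a, ha, hau⟩ := Finset.exists_mem_ne hC u
      refine (acyc_simplex (C.erase u) (Finset.mem_erase.2 ⟨hau, ha⟩)).congr fun F => ?_
      simp only [lk]
      constructor
      · intro h
        refine ⟨fun h2 => by simpa using h h2, ?_⟩
        exact Finset.insert_subset hu (h.trans (Finset.erase_subset _ _))
      · rintro ⟨h1, h2⟩
        intro z hz
        refine Finset.mem_erase.2 ⟨?_, h2 (Finset.mem_insert_of_mem hz)⟩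
        rintro rfl
        exact h1 hz
    · refine acyc_false.congr fun F => ?_
      simp only [lk, false_iff, not_and]
      intro _ h
      exact hu (h (Finset.mem_insert_self _ _))

/-! ### the model with three vertices: attaching a triangle along an edge -/

/-- the subsets of `{0, 1}` -/
def A3 : Finset (Finset (Fin 3)) := Finset.univ.filter fun g => (2 : Fin 3) ∉ g

/-- the expansions -/
def L3 : List (Finset (Fin 3) × Fin 3) := [({2}, 0), ({1, 2}, 0)]

/-- the expansions in the links -/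
def Lk3 : Fin 3 → List (Finset (Fin 3) × Fin 3) :=
  ![[({2}, 1)], [({2}, 0)], [(∅, 0), ({1}, 0)]]

theorem ok3 : okSteps A3 L3 = true := by decide +kernel

theorem okk3 : ∀ a, okSteps (lkM A3 a) (Lk3 a) = true := by decide +kernel

theorem fin3 : ∀ a, finSteps (lkM A3 a) (Lk3 a) = lkM (finSteps A3 L3) a := by decide +kernel

theorem mem_fin3 : ∀ g, g ∈ finSteps A3 L3 := by decide +kernel

/-! ### the model with six vertices -/

/-- block of a model vertex -/
def bl : Fin 6 → Bool := ![false, true, false, false, true, true]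

/-- type of a model vertex (`2`: leaf) -/
def ty : Fin 6 → Fin 3 := ![2, 2, 0, 1, 0, 1]

/-- the part of the model in the base -/
def A6 : Finset (Finset (Fin 6)) :=
  Finset.univ.filter fun g => ∀ a ∈ g, ∀ b ∈ g, bl a ≠ bl b → ty a ≠ 2 ∧ ty b ≠ 2

/-- the expansions -/
def L6 : List (Finset (Fin 6) × Fin 6) :=
  [({0, 5}, 2), ({0, 4}, 5), ({1, 3}, 4), ({1, 2}, 4), ({0, 1}, 5), ({0, 2, 4}, 5),
    ({0, 1, 4}, 5), ({1, 2, 3}, 4), ({0, 1, 2}, 4), ({0, 1, 3}, 2)]

/-- the expansions in the links -/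
def Lk6 : Fin 6 → List (Finset (Fin 6) × Fin 6) :=
  ![[({5}, 2), ({4}, 5), ({1}, 5), ({2, 4}, 5), ({1, 4}, 5), ({1, 2}, 4), ({1, 3}, 2)],
    [({3}, 4), ({2}, 4), ({0}, 5), ({0, 4}, 5), ({2, 3}, 4), ({0, 2}, 4), ({0, 3}, 2)],
    [({1}, 4), ({1, 3}, 4), ({0, 1}, 3), ({0, 4}, 1), ({0, 5}, 4)],
    [({1}, 4), ({1, 2}, 4), ({0, 1}, 2)],
    [({0}, 5), ({0, 2}, 5), ({0, 1}, 5), ({1, 2}, 0), ({1, 3}, 2)],
    [({0}, 4), ({0, 2}, 4), ({0, 1}, 4)]]

theorem ok6 : okSteps A6 L6 = true := by decide +kernel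

theorem okk6 : ∀ a, okSteps (lkM A6 a) (Lk6 a) = true := by decide +kernel

theorem fin6 : ∀ a, finSteps (lkM A6 a) (Lk6 a) = lkM (finSteps A6 L6) a := by decide +kernel

end Pool.Agent.FourInt
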