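import Pool.Agent.Lib.MP_1ce213_co.Complex

/-!
# The complex has no partition into four-element intervals
-/

set_option autoImplicit false

namespace Pool.Agent.FourInt

/-- the tetrahedra outside the base -/
def Tets : Finset (Finset (Fin 6)) :=
  {{0, 2, 4, 5}, {0, 1, 4, 5}, {0, 1, 2, 4}, {0, 1, 2, 3}, {1, 2, 3, 4}}

theorem tets_of_card : ∀ g ∈ X6, g ∉ A6 → 4 ≤ g.card → g ∈ Tets := by decide +kernel

theorem tets_card : ∀ g ∈ Tets, g.card = 4 ∧ g ∈ X6 := by decide +kernel

theorem A6_closed : ∀ g ∈ A6, ∀ h ⊆ g, h ∈ A6 := by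
  intro g hg h hh
  rw [mem_A6] at hg ⊢
  exact fun a ha b hb hab => hg a (hh ha) b (hh hb) hab

/-- the pure covering statement for the model -/
theorem model_no_cover (R : Finset (Fin 6) → Finset (Fin 6) → Prop)
    (hu : ∀ g ∈ Tets, ∀ b b', R b g → R b' g → b = b')
    (hc : ∀ h ∈ X6, h ∉ A6 → ∃ g ∈ Tets, h ⊆ g ∧ ∃ b ⊆ h, b.card = 2 ∧ R b g) : False := by
  obtain ⟨g1, hg1, hs1, b1, hb1, -, r1⟩ := hc {0, 2, 5} (by decide +kernel) (by decide +kernel)
  obtain ⟨g2, hg2, hs2, b2, hb2, -, r2⟩ := hc {0, 1, 5} (by decide +kernel) (by decide +kernel)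
  obtain ⟨g3, hg3, hs3, b3, hb3, -, r3⟩ := hc {0, 1, 3} (by decide +kernel) (by decide +kernel)
  obtain ⟨g4, hg4, hs4, b4, hb4, -, r4⟩ := hc {1, 3, 4} (by decide +kernel) (by decide +kernel)
  obtain ⟨g5, hg5, hs5, b5, hb5, hc5, r5⟩ := hc {0, 4} (by decide +kernel) (by decide +kernel)
  obtain ⟨g6, hg6, hs6, b6, hb6, hc6, r6⟩ := hc {1, 2} (by decide +kernel) (by decide +kernel)
  have e1 : g1 = {0, 2, 4, 5} := by
    clear r1; revert g1; decide +kernel
  have e2 : g2 = {0, 1, 4, 5} := by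
    clear r2; revert g2; decide +kernel
  have e3 : g3 = {0, 1, 2, 3} := by
    clear r3; revert g3; decide +kernel
  have e4 : g4 = {1, 2, 3, 4} := by
    clear r4; revert g4; decide +kernel
  subst e1 e2 e3 e4
  have f5 : b5 = {0, 4} := Finset.eq_of_subset_of_card_le hb5 (by rw [hc5]; decide)
  have f6 : b6 = {1, 2} := Finset.eq_of_subset_of_card_le hb6 (by rw [hc6]; decide)
  subst f5 f6
  have h5 : g5 = {0, 2, 4, 5} ∨ g5 = {0, 1, 4, 5} ∨ g5 = {0, 1, 2, 4} := by
    clear r5; revert g5; decide +kernel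
  have h6 : g6 = {0, 1, 2, 4} ∨ g6 = {0, 1, 2, 3} ∨ g6 = {1, 2, 3, 4} := by
    clear r6; revert g6; decide +kernel
  have k5 : g5 = {0, 1, 2, 4} := by
    rcases h5 with rfl | rfl | rfl
    · have := hu _ hg5 _ _ r5 r1
      rw [← this] at hb1
      exact absurd hb1 (by decide)
    · have := hu _ hg5 _ _ r5 r2
      rw [← this] at hb2
      exact absurd hb2 (by decide)
    · rfl
  subst k5
  rcases h6 with rfl | rfl | rfl
  · have := hu _ hg6 _ _ r6 r5
    exact absurd this (by decide)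
  · have := hu _ hg6 _ _ r6 r3
    rw [← this] at hb3
    exact absurd hb3 (by decide)
  · have := hu _ hg6 _ _ r6 r4
    rw [← this] at hb4
    exact absurd hb4 (by decide)

/-- the complex -/
def Full (F : Finset (Fin 24)) : Prop := ST Finset.univ F

theorem two_Full : Two Full := two_ST _

theorem no_part (Δ : Finset (Finset (Fin 24))) (hΔ : ∀ F, F ∈ Δ ↔ Full F)
    (P : Finset (Finset (Fin 24) × Finset (Fin 24)))
    (h1 : ∀ p ∈ P, p.1 ⊆ p.2 ∧ (p.2 \ p.1).card = 2 ∧ p.2 ∈ Δ)
    (h2 : ∀ H ∈ Δ, ∃! p, p ∈ P ∧ p.1 ⊆ H ∧ H ⊆ p.2) : False := by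
  have hcl : ∀ F ∈ Δ, ∀ G, G ⊆ F → G ∈ Δ := fun F hF G hG =>
    (hΔ G).2 (two_Full.closed F ((hΔ F).1 hF) G hG)
  have hcard : ∀ p ∈ P, p.2.card = p.1.card + 2 := by
    intro p hp
    have := Finset.card_sdiff_add_card_eq_card (h1 p hp).1
    rw [(h1 p hp).2.1] at this
    omega
  have hmem : ∀ (q : Pairs) (g : Finset (Fin 6)), g ∈ X6 → g.map (phi q) ∈ Δ := fun q g hg =>
    (hΔ _).2 (Or.inr ⟨q, Finset.mem_univ _, g, hg, rfl⟩)
  have key : ∀ q : Pairs, ∃ p ∈ P, p.1.card ≤ 1 ∧ ∃ g ∈ X6, g ∉ A6 ∧ p.2 = g.map (phi q) := by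
    intro q
    by_contra hno
    push Not at hno
    refine model_no_cover (fun b g => (b.map (phi q), g.map (phi q)) ∈ P) ?_ ?_
    · intro g hg b b' hb hb'
      have hu := (h2 (g.map (phi q)) (hmem q g (tets_card g hg).2)).unique
        ⟨hb, (h1 _ hb).1, Finset.Subset.refl _⟩ ⟨hb', (h1 _ hb').1, Finset.Subset.refl _⟩
      have := congrArg Prod.fst hu
      exact Finset.map_injective _ this
    · intro h hh hA
      obtain ⟨p, ⟨hp, hp1, hp2⟩, -⟩ := h2 (h.map (phi q)) (hmem q h hh)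
      have hpΔ := (hΔ p.2).1 (h1 p hp).2.2
      rcases hpΔ with hB | ⟨q', -, g, hg, hgp⟩
      · exact absurd ((Bs_map q h).1 (two_Bs.closed _ hB _ hp2)) hA
      · rw [hgp] at hp2
        have hqq : q = q' := pair_eq hA hp2
        subst hqq
        have hhg : h ⊆ g := Finset.map_subset_map.1 hp2
        have hgA : g ∉ A6 := fun h3 => hA (A6_closed g h3 h hhg)
        have hc1 : 1 < p.1.card := by
          by_contra hc
          exact hno p hp (not_lt.1 hc) g hg hgA hgp
        have hc2 := hcard p hp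
        have hc3 : p.2.card = g.card := by rw [hgp, Finset.card_map]
        have hgT : g ∈ Tets := tets_of_card g hg hgA (by omega)
        have hc4 := (tets_card g hgT).1
        obtain ⟨b, hb, hbp⟩ := Finset.subset_map_iff.1 hp1
        refine ⟨g, hgT, hhg, b, hb, ?_, ?_⟩
        · have : p.1.card = b.card := by rw [hbp, Finset.card_map]
          omega
        · have : p = (b.map (phi q), g.map (phi q)) := Prod.ext hbp hgp
          rw [← this]
          exact hp
  choose f hfP hf1 hf2 using key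
  have hinj : Function.Injective (fun q => (f q).1) := by
    intro q q' hqq
    simp only at hqq
    have hD : (f q).1 ∈ Δ := hcl _ (h1 _ (hfP q)).2.2 _ (h1 _ (hfP q)).1
    have hu := (h2 _ hD).unique ⟨hfP q, Finset.Subset.refl _, (h1 _ (hfP q)).1⟩
      ⟨hfP q', by rw [← hqq], by rw [hqq]; exact (h1 _ (hfP q')).1⟩
    obtain ⟨g, hg, hgA, hg2⟩ := hf2 q
    obtain ⟨g', hg', hgA', hg2'⟩ := hf2 q'
    refine pair_eq (g := g) (g' := g') hgA ?_
    rw [← hg2, ← hg2', hu]
  have hle : (Finset.univ : Finset Pairs).card ≤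
      (insert (∅ : Finset (Fin 24))
        (Finset.univ.image fun v : Fin 24 => ({v} : Finset (Fin 24)))).card := by
    refine Finset.card_le_card_of_injOn (fun q => (f q).1) ?_ hinj.injOn
    intro q _
    have hc := hf1 q
    rcases Nat.le_one_iff_eq_zero_or_eq_one.1 hc with h0 | h0
    · rw [Finset.card_eq_zero] at h0
      simp only [h0]
      exact Finset.mem_coe.2 (Finset.mem_insert_self _ _)
    · obtain ⟨v, hv⟩ := Finset.card_eq_one.1 h0
      simp only [hv]
      exact Finset.mem_coe.2 (Finset.mem_insert_of_mem (Finset.mem_image_of_mem _ (Finset.mem_univ v)))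
  have hP : (Finset.univ : Finset Pairs).card = 28 := by decide +kernel
  have h3 := Finset.card_insert_le (∅ : Finset (Fin 24))
    (Finset.univ.image fun v : Fin 24 => ({v} : Finset (Fin 24)))
  have h4 : (Finset.univ.image fun v : Fin 24 => ({v} : Finset (Fin 24))).card ≤ 24 :=
    Finset.card_image_le.trans (by simp)
  omega

end Pool.Agent.FourInt
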