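import Pool.Agent.Lib.MP_af28a5_co.Defs2

/-!
The case `j = 1`: complexes with acyclic vertex links.
-/

set_option autoImplicit false

namespace Pool.Agent.Lib.MP_1ce213_co

open Pool.Agent.Lib.MP_af28a5_co

theorem link_empty {n : ℕ} (Δ : Finset (Finset (Fin n))) : link Δ ∅ = Δ := by
  ext F
  simp [link]

theorem jAcyclic_one {k : Type*} [Field k] {n : ℕ} {Δ : Finset (Finset (Fin n))}
    (h0 : ∅ ∈ Δ) : IsJAcyclic k 1 Δ ↔
      Acyclic k Δ ∧ ∀ v : Fin n, {v} ∈ Δ → Acyclic k (link Δ {v}) := by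
  constructor
  · intro h
    refine ⟨?_, fun v hv => h {v} hv (by simp)⟩
    have := h ∅ h0 (by simp)
    rwa [link_empty] at this
  · rintro ⟨h1, h2⟩ F hF hc
    rcases Nat.lt_or_ge F.card 1 with h | h
    · have : F = ∅ := by rw [← Finset.card_eq_zero]; omega
      rw [this, link_empty]
      exact h1
    · obtain ⟨v, rfl⟩ := Finset.card_eq_one.mp (le_antisymm hc h)
      exact h2 v hF

end Pool.Agent.Lib.MP_1ce213_co
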